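import Pool.Agent.H23.NVK.MTargets

/-!
# The convolution of multiplicative functions (row M_CVP)
-/

set_option autoImplicit false

namespace Pool.Agent.H33.NVK

open Pool.Agent.H23.NVK

/-- the value of a multiplicative function -/
lemma prod_single_add {α : Type} (f : α → ℕ → ℝ) (p : α) (i : ℕ) (a : α →₀ ℕ) (hf : f p 0 = 1)
    (ha : a p = 0) : (Finsupp.single p i + a).prod f = f p i * a.prod f := by
  classical
  rw [Finsupp.prod_add_index_of_disjoint, Finsupp.prod_single_index hf]
  refine Finset.disjoint_of_subset_left Finsupp.support_single_subset ?_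
  rw [Finset.disjoint_singleton_left, Finsupp.notMem_support_iff]
  exact ha

theorem pf_CVP : T_CVP := by
  classical
  intro α f g hf hg n
  obtain ⟨H, hH⟩ : ∃ H : α → ℕ → ℝ, H = fun p k =>
      ∑ i ∈ Finset.HasAntidiagonal.antidiagonal k, f p i.1 * g p i.2 := ⟨_, rfl⟩
  have hH0 : ∀ p, H p 0 = 1 := by
    intro p
    rw [hH]
    simp [hf, hg]
  rw [← hH]
  unfold cv
  induction n using Finsupp.induction with
  | zero => simp
  | single_add p k n' hp hk ih =>
    rw [Finsupp.notMem_support_iff] at hp
    rw [prod_single_add H p k n' (hH0 p) hp, ← ih, hH]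
    simp only
    rw [Finset.sum_mul_sum, ← Finset.sum_product']
    symm
    refine Finset.sum_bij' (fun x _ => (Finsupp.single p x.1.1 + x.2.1,
      Finsupp.single p x.1.2 + x.2.2)) (fun x _ => ((x.1 p, x.2 p), (x.1.erase p, x.2.erase p)))
      ?_ ?_ ?_ ?_ ?_
    · rintro ⟨⟨i, j⟩, ⟨a, b⟩⟩ hx
      rw [Finset.mem_product, Finset.HasAntidiagonal.mem_antidiagonal,
        Finset.HasAntidiagonal.mem_antidiagonal] at hx
      obtain ⟨h1, h2⟩ := hx
      dsimp only at h1 h2 ⊢
      rw [Finset.HasAntidiagonal.mem_antidiagonal, ← h1, ← h2, Finsupp.single_add]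
      dsimp only
      abel
    · rintro ⟨a, b⟩ hx
      rw [Finset.HasAntidiagonal.mem_antidiagonal] at hx
      dsimp only at hx ⊢
      rw [Finset.mem_product, Finset.HasAntidiagonal.mem_antidiagonal,
        Finset.HasAntidiagonal.mem_antidiagonal]
      dsimp only
      constructor
      · have := DFunLike.congr_fun hx p
        rw [Finsupp.add_apply, Finsupp.add_apply, Finsupp.single_eq_same, hp, add_zero] at this
        exact this
      · ext q
        have := DFunLike.congr_fun hx q
        rw [Finsupp.add_apply, Finsupp.add_apply] at this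
        rw [Finsupp.add_apply, Finsupp.erase_apply, Finsupp.erase_apply]
        by_cases hq : q = p
        · subst hq
          simp [hp]
        · rw [if_neg hq, if_neg hq, this, Finsupp.single_apply, if_neg (fun h => hq h.symm),
            zero_add]
    · rintro ⟨⟨i, j⟩, ⟨a, b⟩⟩ hx
      rw [Finset.mem_product, Finset.HasAntidiagonal.mem_antidiagonal,
        Finset.HasAntidiagonal.mem_antidiagonal] at hx
      obtain ⟨h1, h2⟩ := hx
      dsimp only at h1 h2 ⊢
      have h3 := DFunLike.congr_fun h2 p
      rw [Finsupp.add_apply, hp] at h3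
      have ha : a p = 0 := by omega
      have hb : b p = 0 := by omega
      have e1 : ∀ (c : α →₀ ℕ) (l : ℕ), c p = 0 → (Finsupp.single p l + c).erase p = c := by
        intro c l hc
        ext q
        rw [Finsupp.erase_apply]
        by_cases hq : q = p
        · rw [if_pos hq, hq, hc]
        · rw [if_neg hq, Finsupp.add_apply, Finsupp.single_apply, if_neg (fun h => hq h.symm),
            zero_add]
      rw [e1 a i ha, e1 b j hb]
      simp [ha, hb]
    · rintro ⟨a, b⟩ hx
      dsimp only
      rw [Finsupp.single_add_erase, Finsupp.single_add_erase]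
    · rintro ⟨⟨i, j⟩, ⟨a, b⟩⟩ hx
      rw [Finset.mem_product, Finset.HasAntidiagonal.mem_antidiagonal,
        Finset.HasAntidiagonal.mem_antidiagonal] at hx
      obtain ⟨h1, h2⟩ := hx
      dsimp only at h1 h2 ⊢
      have h3 := DFunLike.congr_fun h2 p
      rw [Finsupp.add_apply, hp] at h3
      rw [prod_single_add f p i a (hf p) (by omega), prod_single_add g p j b (hg p) (by omega)]
      ring

end Pool.Agent.H33.NVK
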