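import Pool.Agent.H23.NVK.MTargets
import Pool.Agent.H63.CN.MU1

/-!
# The expansion of the sums of powers of logarithms (row M_EXP)
-/

set_option autoImplicit false

open MeasureTheory Set Filter Topology

namespace Pool.Agent.H33.NVK

open Pool.Agent.H23.NVK
open Pool.Agent.H63.CN (int_inv_sq int_log_pow int_one)

lemma lg_eq (k : ℕ) (x : ℝ) : Pool.Agent.H63.CN.lg k x = lg k x := rfl

/-- the integral of a small function converges -/
lemma eps_limA {ε : ℝ → ℝ} {C δ : ℝ} (hC : 0 ≤ C) (hδ : 0 < δ)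
    (hI : ∀ y, 1 ≤ y → IntervalIntegrable (fun t => ε t / t) volume 1 y)
    (hb : ∀ t, 1 ≤ t → |ε t| ≤ C * t ^ (-δ)) :
    ∃ c : ℝ, ∀ y, 1 ≤ y → |(∫ t in (1 : ℝ)..y, ε t / t) - c| ≤ C / δ * y ^ (-δ) := by
  obtain ⟨D, hD⟩ : ∃ D : ℝ → ℝ, D = fun y => ∫ t in (1 : ℝ)..y, ε t / t := ⟨_, rfl⟩
  have hCδ : 0 ≤ C / δ := by positivity
  have hkey : ∀ y z : ℝ, 1 ≤ y → y ≤ z → |D z - D y| ≤ C / δ * y ^ (-δ) := by
    intro y z hy hyz
    have hy0 : 0 < y := by linarith
    have hz0 : 0 < z := by linarith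
    have hIyz : IntervalIntegrable (fun t => ε t / t) volume y z :=
      (hI y hy).symm.trans (hI z (hy.trans hyz))
    have h1 : D z - D y = ∫ t in y..z, ε t / t := by
      rw [hD]
      simp only
      rw [← intervalIntegral.integral_add_adjacent_intervals (hI y hy) hIyz]
      ring
    have h0 : (0 : ℝ) ∉ Set.uIcc y z := by
      rw [Set.uIcc_of_le hyz]
      intro h
      linarith [h.1]
    have h2 : IntervalIntegrable (fun t : ℝ => C * t ^ (-δ - 1)) volume y z :=
      (intervalIntegral.intervalIntegrable_rpow (Or.inr h0)).const_mul C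
    have h3 : ∫ t in y..z, C * t ^ (-δ - 1) = C / δ * (y ^ (-δ) - z ^ (-δ)) := by
      rw [intervalIntegral.integral_const_mul, integral_rpow (Or.inr ⟨by linarith, h0⟩)]
      have e : -δ - 1 + 1 = -δ := by ring
      rw [e]
      field_simp
      ring
    rw [h1]
    have h4 : |∫ t in y..z, ε t / t| ≤ ∫ t in y..z, |ε t / t| :=
      intervalIntegral.abs_integral_le_integral_abs hyz
    refine h4.trans ?_
    have h5 : ∫ t in y..z, |ε t / t| ≤ ∫ t in y..z, C * t ^ (-δ - 1) := by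
      refine intervalIntegral.integral_mono_on hyz hIyz.abs h2 fun t ht => ?_
      have ht0 : 0 < t := lt_of_lt_of_le hy0 ht.1
      rw [abs_div, abs_of_pos ht0, div_le_iff₀ ht0]
      calc |ε t| ≤ C * t ^ (-δ) := hb t (hy.trans ht.1)
        _ = C * t ^ (-δ - 1) * t := by
            rw [mul_assoc]
            congr 1
            nth_rewrite 3 [← Real.rpow_one t]
            rw [← Real.rpow_add ht0]
            congr 1
            ring
    refine h5.trans ?_
    rw [h3]
    have : 0 ≤ C / δ * z ^ (-δ) := by positivity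
    linarith
  have hcau : CauchySeq (fun n : ℕ => D ((n : ℝ) + 1)) := by
    have hmono : ∀ u v : ℝ, 0 < u → u ≤ v → C / δ * v ^ (-δ) ≤ C / δ * u ^ (-δ) := by
      intro u v hu huv
      exact mul_le_mul_of_nonneg_left
        (Real.rpow_le_rpow_of_nonpos hu huv (by linarith)) hCδ
    refine cauchySeq_of_le_tendsto_0 (fun n : ℕ => C / δ * ((n : ℝ) + 1) ^ (-δ)) ?_ ?_
    · intro n m N hn hm
      have hN0 : (0 : ℝ) ≤ N := Nat.cast_nonneg N
      have hn' : (N : ℝ) ≤ n := by exact_mod_cast hn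
      have hm' : (N : ℝ) ≤ m := by exact_mod_cast hm
      rw [Real.dist_eq]
      rcases le_total n m with h | h
      · have h' : (n : ℝ) ≤ m := by exact_mod_cast h
        rw [abs_sub_comm]
        refine (hkey _ _ (by linarith) (by linarith)).trans ?_
        exact hmono _ _ (by linarith) (by linarith)
      · have h' : (m : ℝ) ≤ n := by exact_mod_cast h
        refine (hkey _ _ (by linarith) (by linarith)).trans ?_
        exact hmono _ _ (by linarith) (by linarith)
    · have h1 : Tendsto (fun n : ℕ => (n : ℝ) + 1) atTop atTop :=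
        tendsto_atTop_add_const_right _ _ tendsto_natCast_atTop_atTop
      have h2 := ((tendsto_rpow_neg_atTop hδ).comp h1).const_mul (C / δ)
      rw [mul_zero] at h2
      exact h2
  obtain ⟨c, hc⟩ := cauchySeq_tendsto_of_complete hcau
  refine ⟨c, fun y hy => ?_⟩
  have h1 : Tendsto (fun n : ℕ => |D ((n : ℝ) + 1) - D y|) atTop (𝓝 |c - D y|) :=
    (hc.sub_const _).abs
  have h2 : |c - D y| ≤ C / δ * y ^ (-δ) := by
    refine le_of_tendsto h1 ?_
    filter_upwards [eventually_ge_atTop ⌈y⌉₊] with n hn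
    have h3 : y ≤ n := (Nat.le_ceil y).trans (by exact_mod_cast hn)
    exact hkey y _ hy (by linarith)
  rw [abs_sub_comm]
  rw [hD] at h2
  exact h2

section

variable {α : Type} {N : α → ℕ} {ρ δ : ℝ}

lemma mem_le (h : AxA N ρ δ) {y : ℝ} {n : α →₀ ℕ} (hn : n ∈ FM N y) :
    (1 : ℝ) ≤ nF N n ∧ (nF N n : ℝ) ≤ y :=
  ⟨by exact_mod_cast h.one_le_nF n, h.mem_FM.1 hn⟩

lemma FM_filter (h : AxA N ρ δ) {t y : ℝ} (hty : t ≤ y) :
    FM N t = (FM N y).filter fun n => (nF N n : ℝ) ≤ t := by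
  ext n
  rw [Finset.mem_filter, h.mem_FM, h.mem_FM]
  exact ⟨fun h1 => ⟨h1.trans hty, h1⟩, fun h1 => h1.2⟩

/-- integration raises the exponent of the logarithm -/
lemma J_lamA (h : AxA N ρ δ) (a : (α →₀ ℕ) → ℝ) (k : ℕ) {y : ℝ} (hy : 1 ≤ y) :
    IntervalIntegrable (fun t => Lam N a (lg k) t / t) volume 1 y ∧
    ((k : ℝ) + 1) * ∫ t in (1 : ℝ)..y, Lam N a (lg k) t / t = Lam N a (lg (k + 1)) y := by
  have heq : Set.EqOn (fun t => Lam N a (lg k) t / t) (fun t => ∑ n ∈ FM N y,
      (if (nF N n : ℝ) ≤ t then a n / nF N n * lg k (t / nF N n) else 0) / t)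
      (Set.uIcc 1 y) := by
    intro t ht
    rw [Set.uIcc_of_le hy] at ht
    simp only
    rw [← Finset.sum_div, ← Finset.sum_filter, ← FM_filter h ht.2]
    rfl
  have hone : ∀ n ∈ FM N y, IntervalIntegrable (fun t =>
      (if (nF N n : ℝ) ≤ t then a n / nF N n * lg k (t / nF N n) else 0) / t) volume 1 y ∧
      ∫ t in (1 : ℝ)..y, (if (nF N n : ℝ) ≤ t then a n / nF N n * lg k (t / nF N n) else 0) / t =
        a n / nF N n * lg (k + 1) (y / nF N n) / (k + 1) := fun n hn =>
    int_one k (a n / nF N n) (mem_le h hn).1 (mem_le h hn).2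
  have hI : IntervalIntegrable (fun t => ∑ n ∈ FM N y,
      (if (nF N n : ℝ) ≤ t then a n / nF N n * lg k (t / nF N n) else 0) / t) volume 1 y := by
    have := IntervalIntegrable.sum (μ := volume) (a := 1) (b := y) (FM N y)
      (f := fun (n : α →₀ ℕ) (t : ℝ) =>
        (if (nF N n : ℝ) ≤ t then a n / nF N n * lg k (t / nF N n) else 0) / t)
      (fun n hn => (hone n hn).1)
    refine this.congr (fun t _ => ?_)
    simp only [Finset.sum_apply]
  refine ⟨hI.congr fun t ht => (heq (Set.uIoc_subset_uIcc ht)).symm, ?_⟩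
  rw [intervalIntegral.integral_congr heq,
    intervalIntegral.integral_finsetSum fun n hn => (hone n hn).1,
    Finset.sum_congr rfl fun n hn => (hone n hn).2, ← Finset.sum_div,
    mul_div_cancel₀ _ (by positivity)]
  rfl

lemma int_oneB {m v : ℝ} (hm : 1 ≤ m) (hmv : m ≤ v) :
    IntervalIntegrable (fun t : ℝ => (if m ≤ t then (1 : ℝ) else 0) / t ^ 2) volume 1 v ∧
    ∫ t in (1 : ℝ)..v, (if m ≤ t then (1 : ℝ) else 0) / t ^ 2 = 1 / m - 1 / v := by
  have hm0 : 0 < m := by linarith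
  obtain ⟨h1, h2⟩ := int_inv_sq (C := 1) hm0 hmv
  have e1 : Set.EqOn (fun t : ℝ => (if m ≤ t then (1 : ℝ) else 0) / t ^ 2) (fun _ => 0)
      (Set.Ioo 1 m) := by
    intro t ht
    simp only
    rw [if_neg (not_le.2 ht.2), zero_div]
  have e2 : Set.EqOn (fun t : ℝ => (if m ≤ t then (1 : ℝ) else 0) / t ^ 2)
      (fun t => 1 / t ^ 2) (Set.Ioo m v) := by
    intro t ht
    simp only
    rw [if_pos ht.1.le]
  have i1 : IntervalIntegrable (fun t : ℝ => (if m ≤ t then (1 : ℝ) else 0) / t ^ 2)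
      volume 1 m := by
    rw [intervalIntegrable_iff_integrableOn_Ioo_of_le hm]
    exact (integrableOn_congr_fun e1 measurableSet_Ioo).2 integrableOn_zero
  have i2 : IntervalIntegrable (fun t : ℝ => (if m ≤ t then (1 : ℝ) else 0) / t ^ 2)
      volume m v := by
    rw [intervalIntegrable_iff_integrableOn_Ioo_of_le hmv] at h1 ⊢
    exact (integrableOn_congr_fun e2 measurableSet_Ioo).2 h1
  refine ⟨i1.trans i2, ?_⟩
  rw [← intervalIntegral.integral_add_adjacent_intervals i1 i2]
  have v1 : ∫ t in (1 : ℝ)..m, (if m ≤ t then (1 : ℝ) else 0) / t ^ 2 = 0 := by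
    rw [intervalIntegral.integral_of_le hm, integral_Ioc_eq_integral_Ioo,
      setIntegral_congr_fun measurableSet_Ioo e1]
    simp
  have v2 : ∫ t in m..v, (if m ≤ t then (1 : ℝ) else 0) / t ^ 2 = ∫ t in m..v, 1 / t ^ 2 := by
    rw [intervalIntegral.integral_of_le hmv, intervalIntegral.integral_of_le hmv,
      integral_Ioc_eq_integral_Ioo, integral_Ioc_eq_integral_Ioo,
      setIntegral_congr_fun measurableSet_Ioo e2]
  rw [v1, v2, h2, zero_add]

/-- Abel summation -/
lemma abelA (h : AxA N ρ δ) {y : ℝ} (hy : 1 ≤ y) :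
    IntervalIntegrable (fun t => ((FM N t).card : ℝ) / t ^ 2) volume 1 y ∧
    ∫ t in (1 : ℝ)..y, ((FM N t).card : ℝ) / t ^ 2 =
      Lam N (fun _ => 1) (lg 0) y - ((FM N y).card : ℝ) / y := by
  have heq : Set.EqOn (fun t => ((FM N t).card : ℝ) / t ^ 2) (fun t => ∑ n ∈ FM N y,
      (if (nF N n : ℝ) ≤ t then (1 : ℝ) else 0) / t ^ 2) (Set.uIcc 1 y) := by
    intro t ht
    rw [Set.uIcc_of_le hy] at ht
    simp only
    rw [← Finset.sum_div, ← Finset.sum_filter, ← FM_filter h ht.2, Finset.sum_const,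
      nsmul_eq_mul, mul_one]
  have hone : ∀ n ∈ FM N y, IntervalIntegrable (fun t : ℝ =>
      (if (nF N n : ℝ) ≤ t then (1 : ℝ) else 0) / t ^ 2) volume 1 y ∧
      ∫ t in (1 : ℝ)..y, (if (nF N n : ℝ) ≤ t then (1 : ℝ) else 0) / t ^ 2 =
        1 / nF N n - 1 / y := fun n hn => int_oneB (mem_le h hn).1 (mem_le h hn).2
  have hI : IntervalIntegrable (fun t : ℝ => ∑ n ∈ FM N y,
      (if (nF N n : ℝ) ≤ t then (1 : ℝ) else 0) / t ^ 2) volume 1 y := by
    have := IntervalIntegrable.sum (μ := volume) (a := 1) (b := y) (FM N y)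
      (f := fun (n : α →₀ ℕ) (t : ℝ) => (if (nF N n : ℝ) ≤ t then (1 : ℝ) else 0) / t ^ 2)
      (fun n hn => (hone n hn).1)
    refine this.congr (fun t _ => ?_)
    simp only [Finset.sum_apply]
  refine ⟨hI.congr fun t ht => (heq (Set.uIoc_subset_uIcc ht)).symm, ?_⟩
  rw [intervalIntegral.integral_congr heq,
    intervalIntegral.integral_finsetSum fun n hn => (hone n hn).1,
    Finset.sum_congr rfl fun n hn => (hone n hn).2, Finset.sum_sub_distrib, Finset.sum_const,
    nsmul_eq_mul]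
  congr 1
  · unfold Lam lg
    refine Finset.sum_congr rfl fun n _ => ?_
    rw [pow_zero, mul_one]
  · ring

/-- the sum of the inverses -/
lemma expand_zeroA (h : AxA N ρ δ) : ∃ c C : ℝ, 0 < C ∧ ∀ y : ℝ, 1 ≤ y →
    |Lam N (fun _ => 1) (lg 0) y - (ρ * Real.log y + c)| ≤ C * y ^ (-δ) := by
  obtain ⟨C₀, hC₀, hcnt⟩ := h.cnt
  have hδ := h.del
  obtain ⟨ε, hε⟩ : ∃ ε : ℝ → ℝ, ε = fun t => ((FM N t).card : ℝ) / t - ρ := ⟨_, rfl⟩
  have hεb : ∀ t, 1 ≤ t → |ε t| ≤ C₀ * t ^ (-δ) := by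
    intro t ht
    have ht0 : 0 < t := by linarith
    have e1 : ε t = (((FM N t).card : ℝ) - ρ * t) / t := by
      rw [hε]
      field_simp
    rw [e1, abs_div, abs_of_pos ht0, div_le_iff₀ ht0, mul_assoc]
    have e2 : t ^ (-δ) * t = t ^ (1 - δ) := by
      nth_rewrite 2 [← Real.rpow_one t]
      rw [← Real.rpow_add ht0]
      congr 1
      ring
    rw [e2]
    exact hcnt t ht
  have hεeq : ∀ y, 1 ≤ y → Set.EqOn (fun t => ε t / t)
      (fun t => ((FM N t).card : ℝ) / t ^ 2 - ρ / t) (Set.uIcc 1 y) := by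
    intro y hy t ht
    rw [Set.uIcc_of_le hy] at ht
    have ht0 : t ≠ 0 := by
      have := ht.1
      intro h0
      rw [h0] at this
      linarith
    rw [hε]
    simp only
    field_simp
  have hinv : ∀ y : ℝ, 1 ≤ y → IntervalIntegrable (fun t => ρ / t) volume 1 y ∧
      ∫ t in (1 : ℝ)..y, ρ / t = ρ * Real.log y := by
    intro y hy
    have h1 := int_log_pow 0 ρ one_pos one_pos hy
    simp only [div_one] at h1
    have e : (fun t : ℝ => ρ * Pool.Agent.H63.CN.lg 0 t / t) = fun t => ρ / t := by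
      funext t
      rw [lg_eq]
      unfold lg
      simp
    rw [e] at h1
    refine ⟨h1.1, ?_⟩
    rw [h1.2, lg_eq, lg_eq]
    unfold lg
    simp
  have hεI : ∀ y, 1 ≤ y → IntervalIntegrable (fun t => ε t / t) volume 1 y := by
    intro y hy
    have h1 := (abelA h hy).1.sub (hinv y hy).1
    exact h1.congr fun t ht => (hεeq y hy (Set.uIoc_subset_uIcc ht)).symm
  obtain ⟨b, hb⟩ := eps_limA hC₀.le hδ hεI hεb
  refine ⟨ρ + b, C₀ / δ + C₀, by positivity, fun y hy => ?_⟩
  have h1 : ∫ t in (1 : ℝ)..y, ε t / t =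
      (Lam N (fun _ => 1) (lg 0) y - ((FM N y).card : ℝ) / y) - ρ * Real.log y := by
    rw [intervalIntegral.integral_congr (hεeq y hy),
      intervalIntegral.integral_sub (abelA h hy).1 (hinv y hy).1, (abelA h hy).2, (hinv y hy).2]
  have h2 : Lam N (fun _ => 1) (lg 0) y - (ρ * Real.log y + (ρ + b)) =
      ((∫ t in (1 : ℝ)..y, ε t / t) - b) + ε y := by
    rw [h1, hε]
    ring
  rw [h2]
  calc |((∫ t in (1 : ℝ)..y, ε t / t) - b) + ε y|
      ≤ |(∫ t in (1 : ℝ)..y, ε t / t) - b| + |ε y| := abs_add_le _ _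
    _ ≤ C₀ / δ * y ^ (-δ) + C₀ * y ^ (-δ) := add_le_add (hb y hy) (hεb y hy)
    _ = (C₀ / δ + C₀) * y ^ (-δ) := by ring

end

theorem pf_EXP : T_EXP := by
  intro α N ρ δ h k
  have hδ := h.del
  induction k with
  | zero =>
    obtain ⟨c, C, hC, hc⟩ := expand_zeroA h
    refine ⟨fun _ => c, C, hC, fun y hy => ?_⟩
    have h1 := hc y hy
    have h2 : ρ * lg (0 + 1) y / ((0 : ℕ) + 1) + ∑ j ∈ Finset.range (0 + 1),
        c * lg j y = ρ * Real.log y + c := by
      unfold lg
      simp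
    rw [h2]
    exact h1
  | succ k ih =>
    obtain ⟨c, C, hC, hc⟩ := ih
    obtain ⟨Q, hQ⟩ : ∃ Q : ℝ → ℝ, Q = fun t => ρ * lg (k + 1) t / (k + 1) +
      ∑ j ∈ Finset.range (k + 1), c j * lg j t := ⟨_, rfl⟩
    obtain ⟨ε, hε⟩ : ∃ ε : ℝ → ℝ, ε = fun t => Lam N (fun _ => 1) (lg k) t - Q t := ⟨_, rfl⟩
    have hQI : ∀ y, 1 ≤ y → IntervalIntegrable (fun t => Q t / t) volume 1 y ∧
        ∫ t in (1 : ℝ)..y, Q t / t = ρ * lg (k + 2) y / ((k + 1) * (k + 2)) +
          ∑ j ∈ Finset.range (k + 1), c j * lg (j + 1) y / (j + 1) := by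
      intro y hy
      have h0 : ∀ (j : ℕ) (b : ℝ), IntervalIntegrable (fun t => b * lg j t / t) volume 1 y ∧
          ∫ t in (1 : ℝ)..y, b * lg j t / t = b * lg (j + 1) y / (j + 1) := by
        intro j b
        have h1 := int_log_pow j b one_pos one_pos hy
        simp only [div_one, lg_eq] at h1
        refine ⟨h1.1, ?_⟩
        rw [h1.2]
        unfold lg
        simp
      have hsplit : (fun t => Q t / t) = fun t => (ρ / ((k : ℝ) + 1)) * lg (k + 1) t / t +
          ∑ j ∈ Finset.range (k + 1), c j * lg j t / t := by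
        funext t
        rw [hQ]
        simp only
        rw [add_div, Finset.sum_div]
        congr 1
        ring
      have hS : IntervalIntegrable (fun t => ∑ j ∈ Finset.range (k + 1), c j * lg j t / t)
          volume 1 y := by
        have := IntervalIntegrable.sum (μ := volume) (a := 1) (b := y) (Finset.range (k + 1))
          (f := fun (j : ℕ) (t : ℝ) => c j * lg j t / t) (fun j _ => (h0 j (c j)).1)
        refine this.congr (fun t _ => ?_)
        simp only [Finset.sum_apply]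
      rw [hsplit]
      refine ⟨(h0 _ _).1.add hS, ?_⟩
      rw [intervalIntegral.integral_add (h0 _ _).1 hS, (h0 _ _).2,
        intervalIntegral.integral_finsetSum fun j _ => (h0 j (c j)).1,
        Finset.sum_congr rfl fun j _ => (h0 j (c j)).2]
      congr 1
      push_cast
      field_simp
      ring_nf
    have hεI : ∀ y, 1 ≤ y → IntervalIntegrable (fun t => ε t / t) volume 1 y := by
      intro y hy
      have h1 := ((J_lamA h (fun _ => 1) k hy).1).sub (hQI y hy).1
      refine h1.congr fun t _ => ?_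
      rw [hε]
      simp only
      ring
    have hεb : ∀ t, 1 ≤ t → |ε t| ≤ C * t ^ (-δ) := by
      intro t ht
      rw [hε, hQ]
      exact hc t ht
    obtain ⟨b, hb⟩ := eps_limA hC.le hδ hεI hεb
    refine ⟨fun j => if j = 0 then (k + 1) * b else (k + 1) * c (j - 1) / j,
      (k + 1) * (C / δ), by positivity, fun y hy => ?_⟩
    have hy0 : 0 < y := by linarith
    have h1 : Lam N (fun _ => 1) (lg (k + 1)) y = ((k : ℝ) + 1) *
        ((∫ t in (1 : ℝ)..y, Q t / t) + ∫ t in (1 : ℝ)..y, ε t / t) := by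
      rw [← (J_lamA h (fun _ => 1) k hy).2,
        ← intervalIntegral.integral_add (hQI y hy).1 (hεI y hy)]
      congr 1
      refine intervalIntegral.integral_congr fun t _ => ?_
      rw [hε]
      simp only
      ring
    have h2 : ρ * lg (k + 1 + 1) y / (((k + 1 : ℕ) : ℝ) + 1) + ∑ j ∈ Finset.range (k + 1 + 1),
        (if j = 0 then ((k : ℝ) + 1) * b else (k + 1) * c (j - 1) / j) * lg j y =
        ((k : ℝ) + 1) * ((∫ t in (1 : ℝ)..y, Q t / t) + b) := by
      rw [(hQI y hy).2, Finset.sum_range_succ']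
      simp only [Nat.add_eq_zero_iff, one_ne_zero, and_false, if_false, add_tsub_cancel_right,
        if_true]
      have h3 : ∑ j ∈ Finset.range (k + 1), ((k : ℝ) + 1) * c j / ((j + 1 : ℕ) : ℝ) *
          lg (j + 1) y = ((k : ℝ) + 1) * ∑ j ∈ Finset.range (k + 1),
            c j * lg (j + 1) y / (j + 1) := by
        rw [Finset.mul_sum]
        refine Finset.sum_congr rfl fun j _ => ?_
        push_cast
        ring
      rw [h3]
      have h4 : lg 0 y = 1 := by unfold lg; simp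
      rw [h4]
      push_cast
      field_simp
      ring
    rw [h1, h2]
    have h5 := hb y hy
    have h6 : ((k : ℝ) + 1) * ((∫ t in (1 : ℝ)..y, Q t / t) + ∫ t in (1 : ℝ)..y, ε t / t) -
        ((k : ℝ) + 1) * ((∫ t in (1 : ℝ)..y, Q t / t) + b) =
        ((k : ℝ) + 1) * ((∫ t in (1 : ℝ)..y, ε t / t) - b) := by ring
    rw [h6, abs_mul, abs_of_pos (by positivity), mul_assoc]
    gcongr

end Pool.Agent.H33.NVK
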