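import Pool.Agent.H89.NV.TU2

/-!
# Every stable lattice is homothetic to the lattice of a form (row U_NFM)
-/

set_option autoImplicit false

open MeasureTheory Set Filter NumberField NumberField.InfinitePlace Pool.Agent.H65.CM4
open Pool.Agent.H61.NVK Pool.Agent.H89.NV
open scoped Real

namespace Pool.Agent.H33.NVK

section

variable {k : Type} [Field k] [NumberField k] {K : Type} [Field K] [Algebra k K]

lemma nfm_one (J : Ideal (𝓞 k)) (L : Submodule (𝓞 k) K) : hom J 1 L = J • L := by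
  unfold hom
  congr 1
  have h : LinearMap.mulLeft (𝓞 k) (1 : K) = LinearMap.id := by
    ext x
    simp
  rw [h, Submodule.map_id]

end

variable (k : Type) [Field k] [NumberField k] [IsTotallyReal k]

theorem pf_NFM (hPAR : T_PAR k) : T_NFM k := by
  classical
  intro f D b₀ hf hD hb₀ hdis K _ _ h L hFG hx hst
  obtain ⟨x, hxL, hx0⟩ := hx
  obtain ⟨L1, hL1⟩ : ∃ L1 : Submodule (𝓞 k) K,
      L1 = L.map (LinearMap.mulLeft (𝓞 k) x⁻¹) := ⟨_, rfl⟩
  have h1 : (1 : K) ∈ L1 := by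
    rw [hL1, Submodule.mem_map]
    exact ⟨x, hxL, by rw [LinearMap.mulLeft_apply, inv_mul_cancel₀ hx0]⟩
  have hFG1 : L1.FG := by
    rw [hL1]
    exact hFG.map _
  have hst1 : Stb h f b₀ L1 := by
    intro y hy φ hφ
    rw [hL1, Submodule.mem_map] at hy ⊢
    obtain ⟨z, hz, rfl⟩ := hy
    refine ⟨_, hst z hz φ hφ, ?_⟩
    rw [LinearMap.mulLeft_apply, LinearMap.mulLeft_apply]
    ring
  have hF0 : Fm f D ⊤ b₀ := ⟨top_ne_bot, hb₀, by rw [Ideal.top_mul]; exact hdis⟩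
  obtain ⟨⟨e, A, b⟩, ⟨he, hA, hb, hhom⟩, _⟩ :=
    hPAR D hD K h f b₀ L1 hf hF0 hst1 hFG1 h1
  dsimp only at he hA hb hhom
  unfold bs at hb
  obtain ⟨_, hbf, hbd⟩ := Finset.mem_filter.1 hb
  refine ⟨A, b, ⊤, e * (A * f), x⁻¹, hA, hbf, hbd, top_ne_bot,
    mul_ne_zero he (mul_ne_zero hA hf), inv_ne_zero hx0, ?_⟩
  rw [nfm_one, Submodule.top_smul, ← hhom, nfm_one, hL1]
  rfl

end Pool.Agent.H33.NVK
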