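import Pool.Agent.H89.NV.TU2

/-!
# Translations (row U_TRV)
-/

set_option autoImplicit false

open MeasureTheory Set Filter NumberField NumberField.InfinitePlace Pool.Agent.H65.CM4
open Pool.Agent.H61.NVK Pool.Agent.H89.NV
open scoped Real

namespace Pool.Agent.H33.NVK

section

variable {k : Type} [Field k] [NumberField k]

omit [NumberField k] in
lemma trv_ni (I : Ideal (𝓞 k)) (x : 𝓞 k) : x ∈ ni k 4 * I ↔ ∃ c ∈ I, 4 * c = x := by
  unfold ni
  rw [Ideal.mem_span_singleton_mul]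
  simp only [Nat.cast_ofNat]

lemma trv_q4 (c : 𝓞 k) : q4 (4 * c) = c := by
  classical
  have h : ∃ c' : 𝓞 k, 4 * c' = 4 * c := ⟨c, rfl⟩
  unfold q4
  rw [dif_pos h]
  have h4 : (4 : 𝓞 k) ≠ 0 := by norm_num
  exact mul_left_cancel₀ h4 h.choose_spec

/-- the condition for a root -/
def RQ (f I A : Ideal (𝓞 k)) (b c x : 𝓞 k) : Prop :=
  x ∈ A * f ∧ x ^ 2 + b * x + c ∈ I * (A * f ^ 2)

lemma RQ_add (f I A : Ideal (𝓞 k)) (b c x y : 𝓞 k) (hb : b ∈ f) (hy : y ∈ I * (A * f))
    (hx : RQ f I A b c x) : RQ f I A b c (x + y) := by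
  have hy1 : y ∈ A * f := Ideal.mul_le_right hy
  have hyf : y ∈ f := Ideal.mul_le_right hy1
  have hxf : x ∈ f := Ideal.mul_le_right hx.1
  refine ⟨Ideal.add_mem _ hx.1 hy1, ?_⟩
  have e : (x + y) ^ 2 + b * (x + y) + c = (x ^ 2 + b * x + c) + y * (2 * x + y + b) := by ring
  rw [e]
  refine Ideal.add_mem _ hx.2 ?_
  have h1 : y * (2 * x + y + b) ∈ I * (A * f) * f :=
    Ideal.mul_mem_mul hy (Ideal.add_mem _ (Ideal.add_mem _ (Ideal.mul_mem_left _ _ hxf) hyf) hb)
  have e2 : I * (A * f) * f = I * (A * f ^ 2) := by rw [sq]; simp only [mul_assoc]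
  rw [← e2]
  exact h1

omit [NumberField k] in
lemma mem_rts (f I A : Ideal (𝓞 k)) (b c x : 𝓞 k) :
    x ∈ rts f I A b c ↔ x ∈ Rs (I * (A * f)) ∧ RQ f I A b c x := by
  classical
  unfold rts
  rw [Finset.mem_filter]
  rfl

end

variable (k : Type) [Field k] [NumberField k] [IsTotallyReal k]

theorem pf_TRV (hRSB : T_RSB k) (hIDL : T_IDL k) : T_TRV k := by
  classical
  intro f A D b hf hF
  obtain ⟨c, hcA, hc⟩ := (trv_ni _ _).1 hF.dis
  have hq : q4 (b ^ 2 + D) = c := by rw [← hc, trv_q4]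
  have hAf : A * f ^ 2 ≤ f ^ 2 := Ideal.mul_le_right
  have hjc : ∀ j : 𝓞 k, (b + 2 * j) ^ 2 + D = 4 * (j ^ 2 + b * j + c) := by
    intro j
    have : (b + 2 * j) ^ 2 + D = (b ^ 2 + D) + 4 * (j ^ 2 + b * j) := by ring
    rw [this, ← hc]
    ring
  have hqj : ∀ j : 𝓞 k, q4 ((b + 2 * j) ^ 2 + D) = j ^ 2 + b * j + c := by
    intro j
    rw [hjc, trv_q4]
  have hjf : ∀ j ∈ A * f, j ∈ f := fun j hj => Ideal.mul_le_right hj
  rw [hq]
  refine ⟨hc, hcA, ⟨top_ne_bot, hF.mem, ?_⟩, ?_, ?_, ?_⟩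
  · rw [Ideal.top_mul, trv_ni]
    exact ⟨c, hAf hcA, hc⟩
  · intro j hj
    have hmemA : j ^ 2 + b * j + c ∈ A * f ^ 2 := by
      refine Ideal.add_mem _ (Ideal.add_mem _ ?_ ?_) hcA
      · have h1 : j * j ∈ (A * f) * f := Ideal.mul_mem_mul hj (hjf j hj)
        rw [sq, sq, ← mul_assoc]
        exact h1
      · have h1 : j * b ∈ (A * f) * f := Ideal.mul_mem_mul hj hF.mem
        rw [mul_comm b, sq, ← mul_assoc]
        exact h1
    have hbj : b + 2 * j ∈ f := Ideal.add_mem _ hF.mem (Ideal.mul_mem_left _ _ (hjf j hj))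
    refine ⟨⟨hF.ne, hbj, ?_⟩, hqj j, ?_⟩
    · rw [trv_ni]
      exact ⟨j ^ 2 + b * j + c, hmemA, (hjc j).symm⟩
    · intro I g hI hg
      rw [hqj]
      have hI' : I * (A * f) ≠ ⊥ := mul_ne_zero hI (mul_ne_zero hF.ne hf)
      have hshift : ∀ x : 𝓞 k, RQ f I A (b + 2 * j) (j ^ 2 + b * j + c) x ↔
          RQ f I A b c (x + j) := by
        intro x
        unfold RQ
        have e : (x + j) ^ 2 + b * (x + j) + c =
            x ^ 2 + (b + 2 * j) * x + (j ^ 2 + b * j + c) := by ring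
        rw [e]
        refine and_congr_left fun _ => ?_
        exact (Ideal.add_mem_iff_left _ hj).symm
      have hRs := (hRSB.1 (I * (A * f)) hI').1
      have key := hRSB.2.2 (I * (A * f))
        ((rts f I A (b + 2 * j) (j ^ 2 + b * j + c)).image (fun i => i + j))
        (rts f I A b c) (fun x => g (x - j)) ?_ ?_ ?_
      · rw [← key, Finset.sum_image]
        · refine Finset.sum_congr rfl fun i _ => ?_
          rw [add_sub_cancel_right]
        · intro x _ y _ h
          exact add_right_cancel h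
      · intro x hx
        obtain ⟨i, hi, rfl⟩ := Finset.mem_image.1 hx
        rw [mem_rts, hshift] at hi
        obtain ⟨r, ⟨hr1, hr2⟩, huniq⟩ := hRs (i + j)
        refine ⟨r, ⟨?_, hr2⟩, ?_⟩
        · rw [mem_rts]
          refine ⟨hr1, ?_⟩
          have h1 := RQ_add f I A b c (i + j) (-((i + j) - r)) hF.mem
            (neg_mem hr2) hi.2
          have e : i + j + -((i + j) - r) = r := by ring
          rw [e] at h1
          exact h1
        · rintro y ⟨hy1, hy2⟩
          exact huniq y ⟨((mem_rts _ _ _ _ _ _).1 hy1).1, hy2⟩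
      · intro y hy
        rw [mem_rts] at hy
        obtain ⟨r, ⟨hr1, hr2⟩, huniq⟩ := hRs (y - j)
        have hr3 : r + j - y ∈ I * (A * f) := by
          have h1 := neg_mem hr2
          have e : -(y - j - r) = r + j - y := by ring
          rw [e] at h1
          exact h1
        refine ⟨r + j, ⟨?_, hr3⟩, ?_⟩
        · refine Finset.mem_image.2 ⟨r, ?_, rfl⟩
          rw [mem_rts, hshift]
          refine ⟨hr1, ?_⟩
          have h1 := RQ_add f I A b c y (r + j - y) hF.mem hr3 hy.2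
          have e : y + (r + j - y) = r + j := by ring
          rw [e] at h1
          exact h1
        · rintro x ⟨hx1, hx2⟩
          obtain ⟨i, hi, rfl⟩ := Finset.mem_image.1 hx1
          have h2 : i = r := by
            refine huniq i ⟨((mem_rts _ _ _ _ _ _).1 hi).1, ?_⟩
            have h1 := neg_mem hx2
            have e : -(i + j - y) = y - j - i := by ring
            rw [e] at h1
            exact h1
          rw [h2]
      · intro x y hy
        have e : x + y - j = (x - j) + y := by ring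
        show g (x + y - j) = g (x - j)
        rw [e, hg _ y hy]
  · intro I j hI hj
    rw [mem_rts] at hj
    have hbj : b + 2 * j ∈ f := Ideal.add_mem _ hF.mem (Ideal.mul_mem_left _ _ (hjf j hj.2.1))
    refine ⟨⟨mul_ne_zero hI hF.ne, hbj, ?_⟩, hqj j⟩
    rw [trv_ni]
    refine ⟨j ^ 2 + b * j + c, ?_, (hjc j).symm⟩
    rw [mul_assoc]
    exact hj.2.2
  · intro P hP
    obtain ⟨h1, h2, _⟩ := hIDL.2.1 A P hF.ne hP
    refine ⟨h2, hF.mem, ?_⟩
    rw [trv_ni]
    refine ⟨c, ?_, hc⟩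
    have h3 : A * f ^ 2 ≤ dvi A P * f ^ 2 := by
      nth_rewrite 1 [← h1]
      rw [mul_assoc]
      exact Ideal.mul_le_right
    exact h3 hcA

end Pool.Agent.H33.NVK
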